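import Pool.Agent.TH112.BL.Defs

/-!
# BL-J1: log-average means along an ultrafilter
-/

set_option autoImplicit false

namespace Pool.Agent.TH833.BL

open Finset Filter Pool.Agent.TH112.BL

noncomputable section

/-- logarithmic partial sums -/
def S (φ : ℕ → ℝ) (N : ℕ) : ℝ := ∑ n ∈ Icc 1 N, (1 / (n : ℝ)) * φ n

/-- logarithmic averages -/
def avg (φ : ℕ → ℝ) (N : ℕ) : ℝ := (1 / Real.log (N : ℝ)) * S φ N

/-- harmonic sums -/
def H (N : ℕ) : ℝ := ∑ n ∈ Icc 1 N, 1 / (n : ℝ)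

theorem H_eq (N : ℕ) : H N = (harmonic N : ℝ) := by
  rw [harmonic_eq_sum_Icc]
  unfold H
  push_cast
  exact Finset.sum_congr rfl (fun n _ => one_div _)

theorem H_le (N : ℕ) : H N ≤ 1 + Real.log N := by
  rw [H_eq]; exact harmonic_le_one_add_log N

theorem le_H (N : ℕ) : Real.log ((N : ℝ) + 1) ≤ H N := by
  rw [H_eq]
  have := log_add_one_le_harmonic N
  push_cast at this
  exact this

theorem S_bound {φ : ℕ → ℝ} {C : ℝ} (h : ∀ n, |φ n| ≤ C) (N : ℕ) : |S φ N| ≤ C * H N := by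
  unfold S H
  rw [Finset.mul_sum]
  refine (Finset.abs_sum_le_sum_abs _ _).trans (Finset.sum_le_sum fun n _ => ?_)
  rw [abs_mul, abs_of_nonneg (by positivity : (0 : ℝ) ≤ 1 / (n : ℝ)), mul_comm]
  exact mul_le_mul_of_nonneg_right (h n) (by positivity)

theorem one_le_log {N : ℕ} (hN : 3 ≤ N) : 1 ≤ Real.log (N : ℝ) := by
  rw [Real.le_log_iff_exp_le (by positivity)]
  have h1 := Real.exp_one_lt_d9
  have h2 : (3 : ℝ) ≤ N := by exact_mod_cast hN
  linarith

theorem avg_bound {φ : ℕ → ℝ} {C : ℝ} (h : ∀ n, |φ n| ≤ C) {N : ℕ} (hN : 3 ≤ N) :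
    |avg φ N| ≤ 2 * C := by
  have hC : 0 ≤ C := (abs_nonneg _).trans (h 0)
  have hl := one_le_log hN
  unfold avg
  rw [abs_mul, abs_of_nonneg (by positivity : (0 : ℝ) ≤ 1 / Real.log N)]
  have h1 := S_bound h N
  have h2 := H_le N
  rw [div_mul_eq_mul_div, one_mul, div_le_iff₀ (by linarith)]
  calc |S φ N| ≤ C * H N := h1
    _ ≤ C * (1 + Real.log N) := mul_le_mul_of_nonneg_left h2 hC
    _ ≤ 2 * C * Real.log N := by nlinarith

theorem log_tendsto : Tendsto (fun N : ℕ => Real.log (N : ℝ)) atTop atTop :=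
  Real.tendsto_log_atTop.comp tendsto_natCast_atTop_atTop

theorem small_of_bdd {a : ℕ → ℝ} {K : ℝ} (h : ∀ N, |a N| ≤ K) :
    Tendsto (fun N : ℕ => (1 / Real.log (N : ℝ)) * a N) atTop (nhds 0) := by
  have h1 : Tendsto (fun N : ℕ => K / Real.log (N : ℝ)) atTop (nhds 0) :=
    Tendsto.div_atTop tendsto_const_nhds log_tendsto
  apply squeeze_zero_norm' _ h1
  filter_upwards [eventually_ge_atTop 3] with N hN
  have hl := one_le_log hN
  rw [Real.norm_eq_abs, abs_mul, abs_of_nonneg (by positivity : (0 : ℝ) ≤ 1 / Real.log N),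
    div_mul_eq_mul_div, one_mul]
  exact div_le_div_of_nonneg_right (h N) (by linarith)

theorem S_add (φ ψ : ℕ → ℝ) (N : ℕ) : S (fun n => φ n + ψ n) N = S φ N + S ψ N := by
  unfold S
  rw [← Finset.sum_add_distrib]
  exact Finset.sum_congr rfl fun n _ => by ring

theorem S_smul (c : ℝ) (φ : ℕ → ℝ) (N : ℕ) : S (fun n => c * φ n) N = c * S φ N := by
  unfold S
  rw [Finset.mul_sum]
  exact Finset.sum_congr rfl fun n _ => by ring

theorem S_one (N : ℕ) : S (fun _ => 1) N = H N := by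
  unfold S H
  exact Finset.sum_congr rfl fun n _ => by ring

theorem S_nonneg {φ : ℕ → ℝ} (h : ∀ n, 0 ≤ φ n) (N : ℕ) : 0 ≤ S φ N :=
  Finset.sum_nonneg fun n _ => mul_nonneg (by positivity) (h n)

theorem S_succ (φ : ℕ → ℝ) (N : ℕ) : S φ (N + 1) = S φ N + (1 / ((N : ℝ) + 1)) * φ (N + 1) := by
  unfold S
  rw [Finset.sum_Icc_succ_top (by omega)]
  push_cast
  rfl

theorem shift_bound {φ : ℕ → ℝ} {C : ℝ} (h : ∀ n, |φ n| ≤ C) (N : ℕ) :
    |S (fun n => φ (n + 1)) N - S φ N - (1 / ((N : ℝ) + 1)) * φ (N + 1) + φ 1| ≤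
      C * (1 - 1 / ((N : ℝ) + 1)) := by
  induction N with
  | zero => simp [S]
  | succ N ih =>
    rw [S_succ, S_succ]
    push_cast
    have e : S (fun n => φ (n + 1)) N + 1 / ((N : ℝ) + 1) * φ (N + 1 + 1) -
        (S φ N + 1 / ((N : ℝ) + 1) * φ (N + 1)) -
        1 / ((N : ℝ) + 1 + 1) * φ (N + 1 + 1) + φ 1 =
        (S (fun n => φ (n + 1)) N - S φ N - (1 / ((N : ℝ) + 1)) * φ (N + 1) + φ 1) +
        (1 / ((N : ℝ) + 1) - 1 / ((N : ℝ) + 1 + 1)) * φ (N + 1 + 1) := by ring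
    rw [e]
    have hp : 0 ≤ 1 / ((N : ℝ) + 1) - 1 / ((N : ℝ) + 1 + 1) := by
      rw [sub_nonneg]
      exact one_div_le_one_div_of_le (by positivity) (by linarith)
    have h2 : |(1 / ((N : ℝ) + 1) - 1 / ((N : ℝ) + 1 + 1)) * φ (N + 1 + 1)| ≤
        (1 / ((N : ℝ) + 1) - 1 / ((N : ℝ) + 1 + 1)) * C := by
      rw [abs_mul, abs_of_nonneg hp]
      exact mul_le_mul_of_nonneg_left (h _) hp
    refine (abs_add_le _ _).trans ((add_le_add ih h2).trans (le_of_eq ?_))
    ring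

theorem shift_diff {φ : ℕ → ℝ} {C : ℝ} (h : ∀ n, |φ n| ≤ C) (N : ℕ) :
    |S (fun n => φ (n + 1)) N - S φ N| ≤ 3 * C := by
  have hC : 0 ≤ C := (abs_nonneg _).trans (h 0)
  have h1 := shift_bound h N
  have h2 : |(1 / ((N : ℝ) + 1)) * φ (N + 1)| ≤ C := by
    rw [abs_mul, abs_of_nonneg (by positivity : (0 : ℝ) ≤ 1 / ((N : ℝ) + 1))]
    have : 1 / ((N : ℝ) + 1) ≤ 1 := by
      rw [div_le_one (by positivity)]; linarith [(Nat.cast_nonneg N : (0 : ℝ) ≤ N)]
    calc _ ≤ 1 * C := mul_le_mul this (h _) (abs_nonneg _) zero_le_one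
      _ = C := one_mul C
  have h3 := h 1
  have h4 : C * (1 - 1 / ((N : ℝ) + 1)) ≤ C := by
    have : 0 ≤ 1 / ((N : ℝ) + 1) := by positivity
    nlinarith
  rw [abs_le] at *
  constructor <;> linarith [h1.1, h1.2, h2.1, h2.2, h3.1, h3.2]

theorem S_dil {φ : ℕ → ℝ} {p : ℕ} (hp : 1 ≤ p) (N : ℕ) :
    S (fun n => if p ∣ n then (p : ℝ) * φ n else 0) N = S (fun n => φ (p * n)) (N / p) := by
  unfold S
  have hp0 : (p : ℝ) ≠ 0 := by positivity
  have e1 : ∑ n ∈ Icc 1 N, (1 / (n : ℝ)) * (if p ∣ n then (p : ℝ) * φ n else 0) =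
      ∑ n ∈ (Icc 1 N).filter (fun n => p ∣ n), (1 / (n : ℝ)) * ((p : ℝ) * φ n) := by
    rw [Finset.sum_filter]
    refine Finset.sum_congr rfl fun n _ => ?_
    split_ifs <;> simp
  have e2 : (Icc 1 N).filter (fun n => p ∣ n) = (Icc 1 (N / p)).image (fun n => p * n) := by
    ext n
    simp only [Finset.mem_filter, Finset.mem_Icc, Finset.mem_image]
    constructor
    · rintro ⟨⟨h1, h2⟩, k, rfl⟩
      refine ⟨k, ⟨?_, ?_⟩, rfl⟩
      · rcases Nat.eq_zero_or_pos k with rfl | hk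
        · simp at h1
        · exact hk
      · rw [Nat.le_div_iff_mul_le (by omega), mul_comm]; exact h2
    · rintro ⟨k, ⟨h1, h2⟩, rfl⟩
      rw [Nat.le_div_iff_mul_le (by omega), mul_comm] at h2
      exact ⟨⟨Nat.mul_pos (by omega) (by omega), h2⟩, dvd_mul_right p k⟩
  rw [e1, e2, Finset.sum_image (fun a _ b _ hab => Nat.eq_of_mul_eq_mul_left (by omega) hab)]
  refine Finset.sum_congr rfl fun n hn => ?_
  have hn0 : (n : ℝ) ≠ 0 := by
    have := (Finset.mem_Icc.1 hn).1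
    positivity
  push_cast
  field_simp

theorem S_sub_bound {φ : ℕ → ℝ} {C : ℝ} (h : ∀ n, |φ n| ≤ C) {M N : ℕ} (hMN : M ≤ N) :
    |S φ N - S φ M| ≤ C * (H N - H M) := by
  induction N, hMN using Nat.le_induction with
  | base => simp
  | succ N hN ih =>
    have e1 : H (N + 1) = H N + 1 / ((N : ℝ) + 1) := by
      unfold H
      rw [Finset.sum_Icc_succ_top (by omega)]
      push_cast
      rfl
    rw [S_succ, e1]
    have e : S φ N + 1 / ((N : ℝ) + 1) * φ (N + 1) - S φ M =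
      (S φ N - S φ M) + 1 / ((N : ℝ) + 1) * φ (N + 1) := by ring
    rw [e]
    have h2 : |1 / ((N : ℝ) + 1) * φ (N + 1)| ≤ 1 / ((N : ℝ) + 1) * C := by
      rw [abs_mul, abs_of_nonneg (by positivity : (0 : ℝ) ≤ 1 / ((N : ℝ) + 1))]
      exact mul_le_mul_of_nonneg_left (h _) (by positivity)
    refine (abs_add_le _ _).trans ((add_le_add ih h2).trans (le_of_eq ?_))
    ring

theorem dil_diff {φ : ℕ → ℝ} {C : ℝ} (h : ∀ n, |φ n| ≤ C) {p : ℕ} (hp : 1 ≤ p) (N : ℕ) :
    |S (fun n => φ (p * n)) N - S (fun n => if p ∣ n then (p : ℝ) * φ n else 0) N| ≤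
      C * (1 + Real.log p) := by
  have hC : 0 ≤ C := (abs_nonneg _).trans (h 0)
  rw [S_dil hp]
  refine (S_sub_bound (fun n => h (p * n)) (Nat.div_le_self N p)).trans ?_
  apply mul_le_mul_of_nonneg_left _ hC
  rcases Nat.eq_zero_or_pos N with rfl | hN
  · simp only [Nat.zero_div, sub_self]
    have : 0 ≤ Real.log (p : ℝ) := Real.log_nonneg (by exact_mod_cast hp)
    linarith
  · have h1 := H_le N
    have h2 := le_H (N / p)
    have h3 : Real.log N - Real.log p ≤ Real.log (((N / p : ℕ) : ℝ) + 1) := by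
      rw [← Real.log_div (by positivity) (by positivity)]
      apply Real.log_le_log (by positivity)
      rw [div_le_iff₀ (by positivity)]
      have h4 : N < (N / p + 1) * p := by
        have := Nat.lt_mul_div_succ N (show 0 < p by omega)
        rw [mul_comm]
        exact this
      exact_mod_cast h4.le
    linarith

theorem exists_lim (U : Ultrafilter ℕ) (hU : (U : Filter ℕ) ≤ atTop) {φ : ℕ → ℝ} (h : Bd φ) :
    ∃ L, Tendsto (avg φ) U (nhds L) := by
  obtain ⟨C, hC⟩ := h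
  have h1 : ∀ᶠ N in (U : Filter ℕ), avg φ N ∈ Set.Icc (-(2 * C)) (2 * C) := by
    apply hU
    filter_upwards [eventually_ge_atTop 3] with N hN
    have := avg_bound hC hN
    rw [abs_le] at this
    exact this
  obtain ⟨L, _, hL⟩ := (isCompact_Icc (a := -(2 * C)) (b := 2 * C)).ultrafilter_le_nhds
    (U.map (avg φ)) (by
      rw [le_principal_iff]
      exact h1)
  exact ⟨L, hL⟩

/-- limit along an ultrafilter -/
def lm (U : Ultrafilter ℕ) (φ : ℕ → ℝ) : ℝ :=
  open Classical in if h : ∃ L, Tendsto (avg φ) U (nhds L) then h.choose else 0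

theorem lm_eq {U : Ultrafilter ℕ} {φ : ℕ → ℝ} {a : ℝ} (h : Tendsto (avg φ) U (nhds a)) :
    lm U φ = a := by
  unfold lm
  have h' : ∃ L, Tendsto (avg φ) U (nhds L) := ⟨a, h⟩
  rw [dif_pos h']
  exact tendsto_nhds_unique h'.choose_spec h

theorem lm_tendsto {U : Ultrafilter ℕ} (hU : (U : Filter ℕ) ≤ atTop) {φ : ℕ → ℝ} (h : Bd φ) :
    Tendsto (avg φ) U (nhds (lm U φ)) := by
  obtain ⟨L, hL⟩ := exists_lim U hU h
  rw [lm_eq hL]; exact hL

theorem lm_eq_of_diff {U : Ultrafilter ℕ} (hU : (U : Filter ℕ) ≤ atTop) {φ ψ : ℕ → ℝ}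
    (h : Bd ψ) {K : ℝ} (hd : ∀ N, |S φ N - S ψ N| ≤ K) : lm U φ = lm U ψ := by
  apply lm_eq
  have h1 := (small_of_bdd hd).mono_left hU
  have h2 := (lm_tendsto hU h).add h1
  rw [add_zero] at h2
  refine h2.congr fun N => ?_
  unfold avg
  ring

theorem mean_exists (f : ℕ → ℝ) (hf : Bd f)
    (hne : ¬ Tendsto (fun N : ℕ => (1 / Real.log (N : ℝ)) * ∑ n ∈ Icc 1 N, (1 / (n : ℝ)) * f n)
      atTop (nhds 0)) :
    ∃ μ : LM, μ.m f ≠ 0 ∧ ∀ φ : ℕ → ℝ, Bd φ → ∀ c : ℝ,
      (∃ N₀ : ℕ, ∀ N : ℕ, N₀ ≤ N → ∑ n ∈ Icc 1 N, (1 / (n : ℝ)) * φ n ≤ c * Real.log N) →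
      μ.m φ ≤ c := by
  have hne' : ¬ Tendsto (avg f) atTop (nhds 0) := hne
  rw [Filter.tendsto_iff_ultrafilter] at hne'
  push Not at hne'
  obtain ⟨U, hU, hUf⟩ := hne'
  refine ⟨⟨lm U, ?_, ?_, ?_, ?_, ?_, ?_⟩, ?_, ?_⟩
  · intro φ ψ hφ hψ
    apply lm_eq
    refine ((lm_tendsto hU hφ).add (lm_tendsto hU hψ)).congr fun N => ?_
    unfold avg
    rw [S_add]; ring
  · intro c φ hφ
    apply lm_eq
    refine ((lm_tendsto hU hφ).const_mul c).congr fun N => ?_
    unfold avg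
    rw [S_smul]; ring
  · intro φ hφ h0
    apply ge_of_tendsto (lm_tendsto hU hφ)
    apply hU
    filter_upwards [eventually_ge_atTop 3] with N hN
    have := one_le_log hN
    exact mul_nonneg (by positivity) (S_nonneg h0 N)
  · apply lm_eq
    apply Tendsto.mono_left _ hU
    have h1 : Tendsto (fun N : ℕ => 1 + (1 / Real.log (N : ℝ)) * (H N - Real.log N)) atTop
        (nhds (1 + 0)) := by
      apply Tendsto.add tendsto_const_nhds
      apply small_of_bdd (K := 1)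
      intro N
      rcases Nat.eq_zero_or_pos N with rfl | hN
      · simp [H]
      · have h1 := H_le N
        have h2 := le_H N
        have h3 : Real.log (N : ℝ) ≤ Real.log ((N : ℝ) + 1) :=
          Real.log_le_log (by positivity) (by linarith)
        rw [abs_le]; constructor <;> linarith
    rw [add_zero] at h1
    refine h1.congr' ?_
    filter_upwards [eventually_ge_atTop 3] with N hN
    have := one_le_log hN
    unfold avg
    rw [S_one]
    field_simp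
    ring
  · intro φ hφ
    obtain ⟨C, hC⟩ := hφ
    exact lm_eq_of_diff hU ⟨C, hC⟩ (shift_diff hC)
  · intro p φ hp hφ
    obtain ⟨C, hC⟩ := hφ
    refine lm_eq_of_diff hU ⟨p * C, fun n => ?_⟩ (dil_diff hC hp)
    have hC0 : 0 ≤ C := (abs_nonneg _).trans (hC 0)
    dsimp only
    split_ifs
    · rw [abs_mul, abs_of_nonneg (by positivity : (0 : ℝ) ≤ (p : ℝ))]
      exact mul_le_mul_of_nonneg_left (hC n) (by positivity)
    · rw [abs_zero]; positivity
  · intro h0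
    apply hUf
    have := lm_tendsto hU hf
    have h0' : lm U f = 0 := h0
    rw [h0'] at this
    exact this
  · intro φ hφ c ⟨N₀, hN₀⟩
    apply le_of_tendsto (lm_tendsto hU hφ)
    apply hU
    filter_upwards [eventually_ge_atTop (max 3 N₀)] with N hN
    have h1 := one_le_log (le_trans (le_max_left _ _) hN)
    have h2 := hN₀ N (le_trans (le_max_right _ _) hN)
    unfold avg
    rw [div_mul_eq_mul_div, one_mul, div_le_iff₀ (by linarith)]
    exact h2

end

end Pool.Agent.TH833.BL
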